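import Mathlib
import Pool.Agent.Y928.TD.Main

/-!
# The digits of `ζ(2n)/ζ(n)²`

The linear complexity of the first `L` digits of a number in base `b` is the least order of a linear
recurrence over `ℚ` which they satisfy; it is about `L / 2` for random digits, and bounded for the
digits of a rational number. The digits of `t(n) = ζ(2n)/ζ(n)²` begin with about `n log 2 / log b`
digits `b - 1`. Until then their linear complexity is at most `1`; we show that immediately
afterwards it is at least `(1/2 - ε) L`, and remains so up to `L = C n / log b`, for every `C`,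
uniformly in the base.
-/

set_option autoImplicit false

namespace Pool.Agent.Results.MP_f1a024_nt.DigitComplexity

open Finset

/-- `t(n) = ζ(2n) / ζ(n) ^ 2`, a real number for `n ≥ 2` -/
noncomputable def t (n : ℕ) : ℝ := (riemannZeta (2 * n) / riemannZeta n ^ 2).re

/-- the `i`-th digit of `x` after the point in base `b` -/
noncomputable def digit (b : ℕ) (x : ℝ) (i : ℕ) : ℤ := ⌊x * (b : ℝ) ^ i⌋ % (b : ℤ)

/-- The terms `s_1, …, s_L` satisfy the linear recurrence
`s_(i+m) = c_0 s_i + … + c_(m-1) s_(i+m-1)` for `1 ≤ i ≤ L - m`. -/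
def Recurrence (s : ℕ → ℤ) (c : ℕ → ℚ) (L m : ℕ) : Prop :=
  ∀ i : ℕ, 1 ≤ i → i + m ≤ L → (s (i + m) : ℚ) = ∑ j ∈ range m, c j * (s (i + j) : ℚ)

/-- the linear complexity of `s_1, …, s_L` -/
noncomputable def complexity (s : ℕ → ℤ) (L : ℕ) : ℕ :=
  sInf {m | ∃ c : ℕ → ℚ, Recurrence s c L m}

/-- **The digits of `ζ(2n)/ζ(n)²`.** -/
theorem result (ε C : ℝ) (hε : 0 < ε) : ∃ n₀ : ℕ, ∀ n : ℕ, n₀ ≤ n →
    riemannZeta (2 * n) / riemannZeta n ^ 2 = (t n : ℂ) ∧
    ∀ b : ℕ, 2 ≤ b → ∀ L : ℕ,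
      (L * Real.log b ≤ (1 - ε) * (n * Real.log 2) → complexity (digit b (t n)) L ≤ 1) ∧
      (n₀ ≤ L → (1 + ε) * (n * Real.log 2) ≤ L * Real.log b → L * Real.log b ≤ C * n →
        (1 / 2 - ε) * L ≤ complexity (digit b (t n)) L) := by
  obtain ⟨n0, h0⟩ := Pool.Agent.Y928.TD.digits_t ε C hε
  obtain ⟨n1, hn1⟩ := Pool.Agent.TH507.ZS.dser_t
  refine ⟨n0 + n1 + 3, fun n hn => ?_⟩
  have h1 : riemannZeta (2 * n) / riemannZeta n ^ 2 =
      ((Pool.Agent.TH507.ZS.dser Pool.Agent.TH507.ZS.tQ n : ℝ) : ℂ) := by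
    rw [hn1 n (by omega)]
    push_cast
    rw [Pool.Agent.TH507.ZS.dser_z (by omega), Pool.Agent.TH507.ZS.dser_z (by omega)]
    push_cast
    rfl
  have h2 : t n = Pool.Agent.TH507.ZS.dser Pool.Agent.TH507.ZS.tQ n := by
    unfold t
    rw [h1, Complex.ofReal_re]
  refine ⟨by rw [h2]; exact h1, fun b hb L => ?_⟩
  rw [h2]
  obtain ⟨h3, h4⟩ := h0 n (by omega) b hb L
  exact ⟨h3, fun h5 h6 h7 => h4 (by omega) h6 h7⟩

end Pool.Agent.Results.MP_f1a024_nt.DigitComplexity
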