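import Pool.Agent.Y922.ZF.Zdil

/-!
# `ζ(2s)/ζ(s)^2` and the zeta function at multiples of `s` at almost all algebraic points

The numbers below are `β_l^s` (for instance `π^s`) and `ζ^(k)(s), ζ^(k)(2s), …, ζ^(k)(Js)`. A rational (algebraic) value
`t` of `ζ(2s)/ζ(s)^2` is a relation `ζ(2s) - t ζ(s)^2 = 0` of this kind, with `J = 2` and `w = 1`. The proof contains the
algebraic independence over `ℂ(s)` of `π^s` and of all functions `ζ^(k)(js)`, `j ≥ 1`, `k ≥ 0`.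
-/

set_option autoImplicit false

open NumberField

namespace Pool.Agent.Results.MP_f1a024_nt.QuotientAtAlgebraicPoints

/-- The elements of the number field `F` with image in `K` which are quotients of two integers of `F` all of whose
conjugates have absolute value at most `T`. -/
def Points (F : Type) [Field F] [NumberField F] (ι : F →+* ℂ) (K : Set ℂ) (T : ℝ) : Set F :=
  {x | ι x ∈ K ∧ ∃ a b : 𝓞 F, b ≠ 0 ∧ (∀ φ : F →+* ℂ, ‖φ a‖ ≤ T ∧ ‖φ b‖ ≤ T) ∧ x = a / b}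
/-- The numbers `β_l^s` and `ζ^(k)(j s)`, `1 ≤ j ≤ J`, `0 ≤ k < w`. -/
noncomputable def values {h : ℕ} (β : Fin h → ℝ) (J w : ℕ) (s : ℂ) : Fin h ⊕ (Fin J × Fin w) → ℂ
  | Sum.inl l => (β l : ℂ) ^ s
  | Sum.inr x => iteratedDeriv x.2 riemannZeta ((((x.1 : ℕ) + 1 : ℕ) : ℂ) * s)


/-- The `n`-tuples `t` of points of `F` for which there is a polynomial `P` of degree at most `d` in each variable, with
coefficients of the form `∑ ξ_i ι(c_i)`, where the `c_i` are integers of `F` all of whose conjugates have absolute value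
at most `T ^ A`, such that the value of `P` at the numbers `values β J w (t_j)`, `j ≤ n`, is at most `T ^ (-B)` times the
absolute value of some nonzero coefficient of `P`. -/
def Exceptional {h : ℕ} (β : Fin h → ℝ) (J w : ℕ) (n d : ℕ) {g : ℕ} (F : Type) [Field F] [NumberField F] (ι : F →+* ℂ)
    (ξ : Fin g → ℂ) (K : Set ℂ) (A B T : ℝ) : Set (Fin n → F) :=
  {t | (∀ j, t j ∈ Points F ι K T) ∧ ∃ P : MvPolynomial (Fin n × (Fin h ⊕ (Fin J × Fin w))) ℂ,
    (∀ x, P.degreeOf x ≤ d) ∧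
    (∀ s, ∃ c : Fin g → 𝓞 F, (∀ i (φ : F →+* ℂ), ‖φ (c i)‖ ≤ T ^ A) ∧ P.coeff s = ∑ i, ξ i * ι (c i)) ∧
    ∃ s₀, P.coeff s₀ ≠ 0 ∧
      ‖MvPolynomial.aeval (fun x : Fin n × (Fin h ⊕ (Fin J × Fin w)) => values β J w (ι (t x.1)) x.2) P‖ ≤
        T ^ (-B) * ‖P.coeff s₀‖}

/-- Let `β_1, …, β_h` be positive real numbers such that `∏ β_l ^ v_l` is irrational for all nonzero `v ∈ ℤ^h` (for
instance `h = 1` and `β_1 = π`, see `Y922.ZF.pi_ok`), and let `K` be a compact set in `ℂ` which contains none of the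
numbers `1, 1/2, …, 1/J`. For all `w`, `m`, `n`, `g`, `d`, `A` and `ε > 0` there are `B`, `C`, `T₀` such that for every
number field `F` of degree at most `m`, every embedding of `F` in `ℂ`, all complex numbers `ξ_1, …, ξ_g` and all
`T ≥ T₀` the number of exceptional `n`-tuples is at most `C T^ε N^(n - 1)`, where `N` is the number of points. -/
theorem result {h : ℕ} (β : Fin h → ℝ) (hβ0 : ∀ l, 0 < β l)
    (hβ : ∀ v : Fin h → ℤ, (∃ x : ℚ, ∏ l, β l ^ v l = x) → v = 0) (J w m n g d : ℕ) (K : Set ℂ) (hK : IsCompact K)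
    (hK1 : ∀ s ∈ K, ∀ j : Fin J, ((j : ℂ) + 1) * s ≠ 1) (A ε : ℝ) (hε : 0 < ε) :
    ∃ B C T₀ : ℝ, ∀ (F : Type) [Field F] [NumberField F], Module.finrank ℚ F ≤ m → ∀ (ι : F →+* ℂ) (ξ : Fin g → ℂ)
      (T : ℝ), T₀ ≤ T → (Exceptional β J w n d F ι ξ K A B T).Finite ∧
        ((Exceptional β J w n d F ι ξ K A B T).ncard : ℝ) ≤ C * T ^ ε * ((Points F ι K T).ncard : ℝ) ^ (n - 1) := by
  classical
  obtain ⟨B, C, T₀, hC, hT₀, H⟩ := Y124.excNF (h := Fin g) m n d (Y922.ZF.vZ β J w) K (fun g' => Y922.ZF.oneZ g' β hβ0 hβ J w K hK hK1) A ε hε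
  refine ⟨B, C, T₀, fun F _ _ hF ι ξ T hT => ?_⟩
  have hT0 : 0 ≤ T := by linarith
  have hP : Points F ι K T = {x : F | Y120.HtLe F T x ∧ ι x ∈ K} := by
    ext x
    constructor
    · rintro ⟨h1, a, b, hb, hab, hx⟩
      exact ⟨⟨a, b, hb, Y120.house_le F hT0 fun φ => (hab φ).1, Y120.house_le F hT0 fun φ => (hab φ).2, hx⟩, h1⟩
    · rintro ⟨⟨a, b, hb, ha, hb', hx⟩, h1⟩
      exact ⟨h1, a, b, hb, fun φ => ⟨(Y120.house_ge F _ φ).trans ha, (Y120.house_ge F _ φ).trans hb'⟩, hx⟩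
  have hval : ∀ (s : ℂ) y, values β J w s y = (Y922.ZF.vZ β J w) s y := by
    intro s y
    rcases y with l | x <;> rfl
  have hsub : Exceptional β J w n d F ι ξ K A B T ⊆ Y124.ExcNF n d F ι ξ ((Y922.ZF.vZ β J w)) K A B T := by
    rintro t ⟨ht, P, hPd, hPc, s₀, hs₀, hs⟩
    refine ⟨fun j => ?_, P, hPd, hPc, s₀, hs₀, ?_⟩
    · have h1 := ht j
      rw [hP] at h1
      exact h1
    · simp only [hval] at hs
      exact hs
  obtain ⟨h1, h2⟩ := H F hF ι ξ T hT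
  refine ⟨h1.subset hsub, ?_⟩
  rw [hP]
  exact le_trans (by exact_mod_cast Set.ncard_le_ncard hsub h1) h2

end Pool.Agent.Results.MP_f1a024_nt.QuotientAtAlgebraicPoints
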