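import Mathlib
import Pool.Agent.Y760.RT.Ser

/-!
# `ζ(2n) / ζ(n) ^ 2` at large integers: rational approximations, exponent two
-/

set_option autoImplicit false

namespace Pool.Agent.Results.MP_f1a024_nt.RothTypeBound

/-- `t(n) = ζ(2n) / ζ(n) ^ 2`, with the Riemann zeta function of Mathlib -/
noncomputable def t (n : ℕ) : ℂ := riemannZeta (2 * n) / riemannZeta n ^ 2

open Pool.Agent.TH507.ZS Pool.Agent.Y760.RT in
/-- Let `β ≠ 0` be a real algebraic number (for instance `β = 1`), `C` a real number and `B > 1`.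
For all sufficiently large `n` and all integers `p`, `q` with `1 ≤ q ≤ C ^ n` and `p / q ≠ β`,
`|β ζ(2n) / ζ(n) ^ 2 - p / q| > 1 / (q ^ 2 B ^ n)`. -/
theorem result (β : ℝ) (hβ : IsAlgebraic ℚ β) (hβ0 : β ≠ 0) (C B : ℝ) (hB : 1 < B) :
    ∃ n0 : ℕ, ∀ n : ℕ, n0 ≤ n → ∀ p q : ℤ, 1 ≤ q → (q : ℝ) ≤ C ^ n → (p : ℝ) / q ≠ β →
      1 / ((q : ℝ) ^ 2 * B ^ n) < ‖β * t n - p / q‖ := by
  obtain ⟨A, hA⟩ := tQ_pb
  have h1 : tQ 1 = 1 := tQ_mult.1
  obtain ⟨n0, hn0⟩ := mainQ hA (fun h hh => by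
    obtain ⟨k, h1, h2, h3, h4⟩ := exists_prime_coprime hh
    refine ⟨k, h1, h2, h3, ?_⟩
    rw [tQ_prime h4]
    norm_num) β hβ hβ0 C B hB
  obtain ⟨n1, hn1⟩ := dser_t
  refine ⟨n0 + n1 + 3, fun n hn p q hq hqC hpq => ?_⟩
  have h2 := hn0 n (by omega) p q hq hqC (by rwa [h1, Rat.cast_one, mul_one])
  have h3 : t n = ((dser tQ n : ℝ) : ℂ) := by
    rw [hn1 n (by omega), t]
    push_cast
    rw [dser_z (by omega), dser_z (by omega)]
    push_cast
    rfl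
  have h4 : (β : ℂ) * t n - p / q = ((β * dser tQ n - p / q : ℝ) : ℂ) := by
    rw [h3]
    push_cast
    rfl
  rw [h4, Complex.norm_real, Real.norm_eq_abs]
  exact h2

end Pool.Agent.Results.MP_f1a024_nt.RothTypeBound
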