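import Mathlib
import Pool.Agent.Y760.ST.Gb

/-!
# Monomials in the numbers `ζ(a n + b)`, with exponents of any sign: sharp measures

For `t(n) = ζ(2n) / ζ(n) ^ 2`, all monomials in `t(n), t(n + 1), …, t(n + k)` are monomials of this
type, with exponents `1` at `2 n + 2 i` and `-2` at `n + i`.

The proof is in the helper files `Pool.Agent.Y760.ST` (with parts by helper43, helper93, helper109,
helper379, helper406, helper810, helper919); it uses the subspace theorem over the field of germs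
of rational sequences (`Pool.Agent.TH796.AL`).
-/

set_option autoImplicit false

namespace Pool.Agent.Results.MP_f1a024_nt.SchmidtTypeMeasure

/-- the product of the `ζ((a + 1) n + b) ^ e a b` over `a < A`, `b < h`, with the Riemann zeta
function of Mathlib -/
noncomputable def monomial {A h : ℕ} (e : Fin A → Fin h → ℤ) (n : ℕ) : ℂ :=
  ∏ a : Fin A, ∏ b : Fin h, riemannZeta (((a + 1) * n + b : ℕ) : ℂ) ^ e a b

open Pool.Agent.TH507.ZS Pool.Agent.Y760.ST in
/-- Let `β_1, …, β_l` be real algebraic numbers, linearly independent over `ℚ`, and let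
`e_0, …, e_r` be distinct vectors of integer exponents. There is `D > 1` such that for all `C` and
all `B > 1` there is `n0` such that for all `n ≥ n0`, all `H` with `D ^ n ≤ H ≤ C ^ n` and all
integers `q_(j,i)`, not all zero, of absolute value at most `H`,
`|∑ q_(j,i) β_j ∏ ζ(a n + b) ^ (e_i (a, b))| > 1 / (H ^ (l (r + 1) - 1) B ^ n)`. -/
theorem result {l A h r : ℕ} (β : Fin l → ℝ) (hβ : ∀ j, IsAlgebraic ℚ (β j))
    (hβi : LinearIndependent ℚ β) (e : Fin (r + 1) → Fin A → Fin h → ℤ)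
    (he : Function.Injective e) :
    ∃ D : ℝ, 1 < D ∧ ∀ C B : ℝ, 1 < B → ∃ n0 : ℕ, ∀ n : ℕ, n0 ≤ n → ∀ H : ℝ, D ^ n ≤ H →
      H ≤ C ^ n → ∀ q : Fin l → Fin (r + 1) → ℤ, q ≠ 0 → (∀ j i, |(q j i : ℝ)| ≤ H) →
        1 / (H ^ (l * (r + 1) - 1) * B ^ n) <
          ‖∑ j, ∑ i, (q j i : ℂ) * β j * monomial (e i) n‖ := by
  obtain ⟨D, hD, hmain⟩ := gbMain zQ mQ zQ_mult mQ_mult zQ_pb mQ_pb zQ_mul_mQ 1 one_ne_zero
    (fun p hp => zQ_apply hp.ne_zero) (fun p hp => by
      rw [mQ, ArithmeticFunction.intCoe_apply, ArithmeticFunction.moebius_apply_prime hp]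
      norm_num) β hβ hβi e he
  refine ⟨D, hD, fun C B hB => ?_⟩
  obtain ⟨n0, hn0⟩ := hmain C B hB
  refine ⟨n0 + 3, fun n hn H hH1 hH2 q hq hqH => ?_⟩
  have h1 := hn0 n (by omega) H hH1 hH2 q hq hqH
  have h2 : ∀ i, monomial (e i) n =
      ((∏ a : Fin A, ∏ b : Fin h, dser zQ ((a + 1) * n + b) ^ e i a b : ℝ) : ℂ) := by
    intro i
    rw [monomial]
    push_cast
    refine Finset.prod_congr rfl fun a _ => Finset.prod_congr rfl fun b _ => ?_
    have h3 : 3 ≤ ((a : ℕ) + 1) * n + (b : ℕ) := by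
      have h4 : 1 * n ≤ ((a : ℕ) + 1) * n := Nat.mul_le_mul_right n (Nat.le_add_left 1 _)
      omega
    rw [dser_z h3]
    push_cast
    rfl
  have h4 : ∑ j, ∑ i, (q j i : ℂ) * β j * monomial (e i) n =
      ((∑ j, ∑ i, (q j i : ℝ) *
        (β j * ∏ a : Fin A, ∏ b : Fin h, dser zQ ((a + 1) * n + b) ^ e i a b) : ℝ) : ℂ) := by
    push_cast
    refine Finset.sum_congr rfl fun j _ => Finset.sum_congr rfl fun i _ => ?_
    rw [h2 i]
    push_cast
    ring
  rw [h4, Complex.norm_real, Real.norm_eq_abs]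
  exact h1

end Pool.Agent.Results.MP_f1a024_nt.SchmidtTypeMeasure
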